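import Mathlib

/-!
# TWX, module FAC: the factor `ξ ψ(a)² - b` is a unit for characters `ψ` of large conductor `l^M`

(MP_b78433_nt, Theorem C.) `a` is a fixed integer prime to `l`, `a² ≠ 1`, `ξ^r = 1`, `ψ` a Dirichlet
character of conductor `l^M`, `M` large in terms of `a`, `l`, `p`, `r`: then `ξ ψ(a)²` is not
congruent to an element of the prime field modulo the maximal ideal of `V`.
-/

set_option autoImplicit false

namespace Pool.Agent.TWX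

theorem one_add_pow (y : ℤ) (n : ℕ) : ∃ c : ℤ, (1 + y) ^ n = 1 + n * y + y ^ 2 * c := by
  induction n with
  | zero => exact ⟨0, by simp⟩
  | succ n ih =>
    obtain ⟨c, hc⟩ := ih
    refine ⟨n + c + y * c, ?_⟩
    rw [pow_succ, hc]
    push_cast
    ring

theorem lift_pow (l : ℕ) (t : ℕ) (ht : 2 ≤ t) (u : ℤ) (k : ℕ) :
    ∃ w : ℤ, (1 + (l : ℤ) ^ t * u) ^ (l ^ k) = 1 + (l : ℤ) ^ (t + k) * w ∧ (l : ℤ) ∣ w - u := by
  induction k with
  | zero => exact ⟨u, by simp, by simp⟩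
  | succ k ih =>
    obtain ⟨w, hw, hd⟩ := ih
    obtain ⟨c, hc⟩ := one_add_pow ((l : ℤ) ^ (t + k) * w) l
    obtain ⟨m, hm⟩ : ∃ m, t + k = m + 2 := ⟨t + k - 2, by omega⟩
    refine ⟨w + (l : ℤ) ^ (m + 1) * w ^ 2 * c, ?_, ?_⟩
    · rw [pow_succ, pow_mul, hw, hc, show t + (k + 1) = m + 3 by omega, hm]
      ring
    · obtain ⟨e, he⟩ := hd
      refine ⟨e + (l : ℤ) ^ m * w ^ 2 * c, ?_⟩
      rw [mul_add, ← he]
      ring

theorem pow_lin {R : Type*} [CommRing R] (L : R) (n : ℕ) (hn : 1 ≤ n) (h : L ^ (n + 1) = 0) :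
    ∀ m : ℕ, (1 + L ^ n) ^ m = 1 + L ^ n * m := by
  have h2 : L ^ n * L ^ n = 0 := by
    rw [← pow_add, show n + n = (n + 1) + (n - 1) by omega, pow_add, h, zero_mul]
  intro m
  induction m with
  | zero => simp
  | succ m ih =>
    rw [pow_succ, ih]
    push_cast
    linear_combination (m : R) * h2

/-- `A` is an integer `≠ 1`, `A ≡ 1` modulo `l²`: `ψ A ≠ 1` for `ψ` of large conductor. -/
theorem psi_ne_one (l : ℕ) (hl : l.Prime) (A : ℤ) (hA : A ≠ 1) (hA2 : (l : ℤ) ^ 2 ∣ A - 1) :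
    ∃ M₀ : ℕ, ∀ M, M₀ ≤ M → ∀ ψ : DirichletCharacter ℂ (l ^ M),
      ψ (1 + (l : ZMod (l ^ M)) ^ (M - 1)) ≠ 1 → ψ (A : ZMod (l ^ M)) ≠ 1 := by
  have hlp : Prime (l : ℤ) := Nat.prime_iff_prime_int.1 hl
  have hfin : FiniteMultiplicity (l : ℤ) (A - 1) := by
    rw [Int.finiteMultiplicity_iff]
    exact ⟨by simpa using hl.ne_one, sub_ne_zero.2 hA⟩
  obtain ⟨u, hu, hnd⟩ := hfin.exists_eq_pow_mul_and_not_dvd
  set s := multiplicity (l : ℤ) (A - 1) with hs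
  have hs2 : 2 ≤ s := hfin.le_multiplicity_of_pow_dvd hA2
  refine ⟨s + 1, fun M hM ψ hψ h1 => ?_⟩
  obtain ⟨k, rfl⟩ : ∃ k, M = s + k + 1 := ⟨M - s - 1, by omega⟩
  have hM1 : s + k + 1 - 1 = s + k := rfl
  rw [hM1] at hψ
  obtain ⟨w, hw, hd⟩ := lift_pow l s hs2 u k
  -- `l` does not divide `w`
  have hwn : ¬ (l : ℤ) ∣ w := by
    intro h
    apply hnd
    have := dvd_sub h hd
    rwa [sub_sub_cancel] at this
  have h2 : ψ (((1 + (l : ℤ) ^ (s + k) * w : ℤ)) : ZMod (l ^ (s + k + 1))) = 1 := by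
    rw [← hw, show (1 + (l : ℤ) ^ s * u) = A by rw [← hu]; ring]
    push_cast
    rw [map_pow, h1, one_pow]
  -- a natural number congruent to `w`
  obtain ⟨w', hw'⟩ : ∃ w' : ℕ, (l : ℤ) ∣ (w' : ℤ) - w := by
    refine ⟨(w % l).toNat, ?_⟩
    have hl0 : (0 : ℤ) < l := by exact_mod_cast hl.pos
    rw [Int.toNat_of_nonneg (Int.emod_nonneg _ hl0.ne')]
    exact ⟨-(w / l), by have := Int.emod_add_mul_ediv w l; linarith⟩
  have hwn' : ¬ l ∣ w' := by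
    intro h
    apply hwn
    have h3 : (l : ℤ) ∣ (w' : ℤ) := by exact_mod_cast h
    have := dvd_sub h3 hw'
    rwa [sub_sub_cancel] at this
  have hz : ((l : ZMod (l ^ (s + k + 1))) ^ (s + k + 1)) = 0 := by
    have := ZMod.natCast_self (l ^ (s + k + 1))
    rwa [Nat.cast_pow] at this
  have hp := pow_lin (l : ZMod (l ^ (s + k + 1))) (s + k) (by omega) hz
  have hl1 : ψ (1 + (l : ZMod (l ^ (s + k + 1))) ^ (s + k)) ^ l = 1 := by
    rw [← map_pow, hp, ← pow_succ, hz, add_zero, map_one]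
  have hw1 : ψ (1 + (l : ZMod (l ^ (s + k + 1))) ^ (s + k)) ^ w' = 1 := by
    rw [← map_pow, hp, ← h2]
    congr 1
    obtain ⟨e, he⟩ := hw'
    have h4 : ((w' : ℤ) : ZMod (l ^ (s + k + 1))) = ((w + l * e : ℤ) : ZMod (l ^ (s + k + 1))) := by
      congr 1
      linarith
    push_cast at h4 ⊢
    rw [h4]
    linear_combination (e : ZMod (l ^ (s + k + 1))) * hz
  have hco : Nat.Coprime l w' := (Nat.Prime.coprime_iff_not_dvd hl).2 hwn'
  have h5 : orderOf (ψ (1 + (l : ZMod (l ^ (s + k + 1))) ^ (s + k))) ∣ Nat.gcd l w' :=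
    Nat.dvd_gcd (orderOf_dvd_of_pow_eq_one hl1) (orderOf_dvd_of_pow_eq_one hw1)
  rw [hco.gcd_eq_one, Nat.dvd_one, orderOf_eq_one_iff] at h5
  exact hψ h5

/-- A root of unity of order prime to `p`, congruent to `1`, is `1`. -/
theorem eq_one_of_congr (V : ValuationSubring ℂ) (p : ℕ) (hp : p.Prime)
    (hv : V.valuation (p : ℂ) < 1) (n : ℕ) (hn : ¬ p ∣ n) (ξ : ℂ) (h1 : ξ ^ n = 1)
    (h2 : V.valuation (ξ - 1) < 1) : ξ = 1 := by
  by_contra hne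
  have hn0 : n ≠ 0 := fun h => hn (h ▸ dvd_zero p)
  -- `n = Σ ξ^i` modulo the maximal ideal, and the sum is `0`
  have hsum : ∑ i ∈ Finset.range n, ξ ^ i = 0 := by
    have := mul_geom_sum ξ n
    rw [h1, sub_self] at this
    exact (mul_eq_zero.1 this).resolve_left (sub_ne_zero.2 hne)
  have hvξ : V.valuation ξ = 1 := by
    have h3 : V.valuation ξ ^ n = 1 := by rw [← map_pow, h1, map_one]
    exact (pow_eq_one_iff_of_nonneg zero_le hn0).1 h3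
  have hi : ∀ i : ℕ, V.valuation (ξ ^ i - 1) < 1 := by
    intro i
    have h4 : ξ ^ i - 1 = (ξ - 1) * ∑ j ∈ Finset.range i, ξ ^ j := (mul_geom_sum ξ i).symm
    rw [h4, map_mul]
    have h5 : V.valuation (∑ j ∈ Finset.range i, ξ ^ j) ≤ 1 := by
      apply Valuation.map_sum_le
      intro j _
      rw [map_pow, hvξ, one_pow]
    calc V.valuation (ξ - 1) * V.valuation (∑ j ∈ Finset.range i, ξ ^ j)
        ≤ V.valuation (ξ - 1) * 1 := mul_le_mul_right h5 _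
      _ < 1 := by rw [mul_one]; exact h2
  have hvn : V.valuation (n : ℂ) < 1 := by
    have h6 : (n : ℂ) = - ∑ i ∈ Finset.range n, (ξ ^ i - 1) := by
      rw [Finset.sum_sub_distrib, hsum]
      simp
    rw [h6, Valuation.map_neg]
    exact Valuation.map_sum_lt _ one_ne_zero fun i _ => hi i
  have hco : Nat.Coprime p n := (Nat.Prime.coprime_iff_not_dvd hp).2 hn
  obtain ⟨x, y, hxy⟩ := (Nat.isCoprime_iff_coprime.2 hco : IsCoprime (p : ℤ) (n : ℤ))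
  have h7 : (1 : ℂ) = (x : ℂ) * p + (y : ℂ) * n := by exact_mod_cast hxy.symm
  have hint : ∀ z : ℤ, V.valuation (z : ℂ) ≤ 1 := fun z =>
    (V.valuation_le_one_iff _).2 (intCast_mem V z)
  have h8 : V.valuation (1 : ℂ) < 1 := by
    rw [h7]
    apply Valuation.map_add_lt
    · rw [map_mul]
      exact lt_of_le_of_lt (mul_le_mul_left (hint x) _) (by rw [one_mul]; exact hv)
    · rw [map_mul]
      exact lt_of_le_of_lt (mul_le_mul_left (hint y) _) (by rw [one_mul]; exact hvn)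
  rw [map_one] at h8
  exact lt_irrefl _ h8

/-- FACe: `ξ ψ(a)^e - b` is a unit, `e ≥ 1`. -/
theorem t_FACe (e : ℕ) (he : 1 ≤ e) (V : ValuationSubring ℂ) (p : ℕ) (hp : p.Prime) (hv : V.valuation (p : ℂ) < 1)
    (l : ℕ) (hl : l.Prime) (hpl : p ≠ l) (hpl1 : ¬ p ∣ l - 1) (r : ℕ) (hr : ¬ p ∣ r) (a : ℤ) (ha : ¬ (l : ℤ) ∣ a)
    (ha2 : a ^ 2 ≠ 1) : ∃ M₀ : ℕ, ∀ M, M₀ ≤ M → ∀ ψ : DirichletCharacter ℂ (l ^ M),
      ψ (1 + (l : ZMod (l ^ M)) ^ (M - 1)) ≠ 1 → ∀ ξ : ℂ, ξ ^ r = 1 → ∀ b : ℤ, ¬ (p : ℤ) ∣ b →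
      V.valuation (ξ * ψ (a : ZMod (l ^ M)) ^ e - b) = 1 := by
  have := Fact.mk hp
  have hr0 : r ≠ 0 := fun h => hr (h ▸ dvd_zero p)
  have hp1 : 1 ≤ p - 1 := Nat.sub_pos_of_lt hp.one_lt
  have hph : 1 ≤ l * (l - 1) := Nat.mul_pos hl.pos (Nat.sub_pos_of_lt hl.one_lt)
  set T : ℕ := 2 * (e * ((p - 1) * r)) * (l * (l - 1)) with hT
  have hT0 : T ≠ 0 := by
    have h1 : 0 < r := Nat.pos_of_ne_zero hr0
    positivity
  have haA : a ^ T ≠ 1 := by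
    intro h
    apply ha2
    have h1 : (a ^ 2) ^ ((e * ((p - 1) * r)) * (l * (l - 1))) = 1 := by
      rw [← pow_mul, ← h, hT]
      congr 1
      ring
    have h2 : 0 < (e * ((p - 1) * r)) * (l * (l - 1)) := by
      have h1 : 0 < r := Nat.pos_of_ne_zero hr0
      positivity
    exact (pow_eq_one_iff_of_nonneg (sq_nonneg a) h2.ne').1 h1
  have hA2 : (l : ℤ) ^ 2 ∣ a ^ T - 1 := by
    have hcop : IsCoprime a ((l ^ 2 : ℕ) : ℤ) := by
      push_cast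
      apply IsCoprime.pow_right
      exact ((Prime.coprime_iff_not_dvd (Nat.prime_iff_prime_int.1 hl)).2 ha).symm
    have h1 : ((a : ZMod (l ^ 2)) ^ (l * (l - 1))) = 1 := by
      have hu : IsUnit (a : ZMod (l ^ 2)) := by
        exact (ZMod.coe_int_isUnit_iff_isCoprime a (l ^ 2)).2 hcop.symm
      obtain ⟨U, hU⟩ := hu
      rw [← hU, ← Units.val_pow_eq_pow_val]
      have h2 := ZMod.pow_totient U
      rw [Nat.totient_prime_pow hl (by norm_num)] at h2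
      have h3 : l ^ (2 - 1) * (l - 1) = l * (l - 1) := by norm_num
      rw [h3] at h2
      rw [h2, Units.val_one]
    have h2 : ((a ^ T - 1 : ℤ) : ZMod (l ^ 2)) = 0 := by
      push_cast
      rw [hT, mul_comm, pow_mul, h1, one_pow, sub_self]
    have h3 := (ZMod.intCast_zmod_eq_zero_iff_dvd (a ^ T - 1) (l ^ 2)).1 h2
    exact_mod_cast h3
  obtain ⟨M₀, hM₀⟩ := psi_ne_one l hl (a ^ T) haA hA2
  refine ⟨max M₀ 1, fun M hM ψ hψ ξ hξ b hb => ?_⟩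
  have hint : ∀ z : ℤ, V.valuation (z : ℂ) ≤ 1 := fun z =>
    (V.valuation_le_one_iff _).2 (intCast_mem V z)
  -- the root of unity
  set η : ℂ := ξ * ψ (a : ZMod (l ^ M)) ^ e with hη
  have hu : IsUnit (a : ZMod (l ^ M)) := by
    have hcop : IsCoprime a ((l ^ M : ℕ) : ℤ) := by
      push_cast
      apply IsCoprime.pow_right
      exact ((Prime.coprime_iff_not_dvd (Nat.prime_iff_prime_int.1 hl)).2 ha).symm
    exact (ZMod.coe_int_isUnit_iff_isCoprime a (l ^ M)).2 hcop.symm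
  have hψa : ψ (a : ZMod (l ^ M)) ^ (l ^ (M - 1) * (l - 1)) = 1 := by
    obtain ⟨U, hU⟩ := hu
    rw [← hU, ← map_pow, ← Units.val_pow_eq_pow_val]
    have h2 := ZMod.pow_totient U
    rw [Nat.totient_prime_pow hl (by omega)] at h2
    rw [h2, Units.val_one, map_one]
  have hn : ¬ p ∣ r * (l ^ (M - 1) * (l - 1)) := by
    intro h
    rcases (Nat.Prime.dvd_mul hp).1 h with h | h
    · exact hr h
    rcases (Nat.Prime.dvd_mul hp).1 h with h | h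
    · exact hpl ((Nat.prime_dvd_prime_iff_eq hp hl).1 (hp.dvd_of_dvd_pow h))
    · exact hpl1 h
  have hηn : η ^ (r * (l ^ (M - 1) * (l - 1))) = 1 := by
    rw [hη, mul_pow, pow_mul, hξ, one_pow, one_mul, ← pow_mul,
      show e * (r * (l ^ (M - 1) * (l - 1))) = (l ^ (M - 1) * (l - 1)) * (e * r) by ring, pow_mul,
      hψa, one_pow]
  have hvη : V.valuation η = 1 := by
    have h3 : V.valuation η ^ (r * (l ^ (M - 1) * (l - 1))) = 1 := by
      rw [← map_pow, hηn, map_one]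
    refine (pow_eq_one_iff_of_nonneg zero_le ?_).1 h3
    intro h
    rw [h] at hn
    exact hn (dvd_zero p)
  by_contra hne
  have hlt : V.valuation (η - b) < 1 := by
    refine lt_of_le_of_ne ?_ hne
    exact (Valuation.map_sub _ _ _).trans (max_le hvη.le (hint b))
  -- `η^(p-1)` is congruent to `1`
  have h4 : V.valuation (η ^ (p - 1) - (b : ℂ) ^ (p - 1)) < 1 := by
    obtain ⟨c, hc, hceq⟩ : ∃ c : ℂ, V.valuation c ≤ 1 ∧
        η ^ (p - 1) - (b : ℂ) ^ (p - 1) = (η - b) * c := by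
      refine ⟨∑ i ∈ Finset.range (p - 1), η ^ i * (b : ℂ) ^ (p - 1 - 1 - i), ?_, ?_⟩
      · apply Valuation.map_sum_le
        intro i _
        rw [map_mul, map_pow, map_pow, hvη, one_pow, one_mul]
        exact pow_le_one₀ zero_le (hint b)
      · rw [mul_comm, (Commute.all η (b : ℂ)).geom_sum₂_mul]
    rw [hceq, map_mul]
    calc V.valuation (η - b) * V.valuation c ≤ V.valuation (η - b) * 1 := mul_le_mul_right hc _
      _ < 1 := by rw [mul_one]; exact hlt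
  have h5 : V.valuation ((b : ℂ) ^ (p - 1) - 1) < 1 := by
    have h6 : ((b ^ (p - 1) - 1 : ℤ) : ZMod p) = 0 := by
      push_cast
      rw [ZMod.pow_card_sub_one_eq_one, sub_self]
      intro h
      exact hb ((ZMod.intCast_zmod_eq_zero_iff_dvd b p).1 h)
    obtain ⟨c, hc⟩ := (ZMod.intCast_zmod_eq_zero_iff_dvd _ p).1 h6
    have h7 : (b : ℂ) ^ (p - 1) - 1 = (p : ℂ) * (c : ℂ) := by exact_mod_cast hc
    rw [h7, map_mul]
    calc V.valuation (p : ℂ) * V.valuation (c : ℂ) ≤ V.valuation (p : ℂ) * 1 :=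
          mul_le_mul_right (hint c) _
      _ < 1 := by rw [mul_one]; exact hv
  have h8 : V.valuation (η ^ (p - 1) - 1) < 1 := by
    have h9 : η ^ (p - 1) - 1 = (η ^ (p - 1) - (b : ℂ) ^ (p - 1)) + ((b : ℂ) ^ (p - 1) - 1) := by
      ring
    rw [h9]
    exact Valuation.map_add_lt _ h4 h5
  have h9 : η ^ (p - 1) = 1 := by
    refine eq_one_of_congr V p hp hv (r * (l ^ (M - 1) * (l - 1))) hn _ ?_ h8
    rw [← pow_mul, mul_comm, pow_mul, hηn, one_pow]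
  apply hM₀ M (le_trans (le_max_left _ _) hM) ψ hψ
  have h10 : ψ (a : ZMod (l ^ M)) ^ T = 1 := by
    have h11 : ψ (a : ZMod (l ^ M)) ^ (e * ((p - 1) * r)) = 1 := by
      have h12 : (η ^ (p - 1)) ^ r = 1 := by rw [h9, one_pow]
      rw [hη, ← pow_mul, mul_pow, mul_comm (p - 1) r, pow_mul ξ, hξ, one_pow, one_mul, ← pow_mul] at h12
      rw [← h12]
      congr 1
      ring
    rw [hT, show 2 * (e * ((p - 1) * r)) * (l * (l - 1)) =
      (e * ((p - 1) * r)) * (2 * (l * (l - 1))) by ring, pow_mul, h11, one_pow]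
  push_cast
  rw [map_pow]
  exact h10

/-- FAC: `ξ ψ(a)² - b` is a unit. -/
theorem t_FAC (V : ValuationSubring ℂ) (p : ℕ) (hp : p.Prime) (hv : V.valuation (p : ℂ) < 1)
    (l : ℕ) (hl : l.Prime) (hpl : p ≠ l) (hpl1 : ¬ p ∣ l - 1) (r : ℕ) (hr : ¬ p ∣ r) (a : ℤ)
    (ha : ¬ (l : ℤ) ∣ a) (ha2 : a ^ 2 ≠ 1) :
    ∃ M₀ : ℕ, ∀ M, M₀ ≤ M → ∀ ψ : DirichletCharacter ℂ (l ^ M),
      ψ (1 + (l : ZMod (l ^ M)) ^ (M - 1)) ≠ 1 → ∀ ξ : ℂ, ξ ^ r = 1 → ∀ b : ℤ, ¬ (p : ℤ) ∣ b →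
      V.valuation (ξ * ψ (a : ZMod (l ^ M)) ^ 2 - b) = 1 :=
  t_FACe 2 (by norm_num) V p hp hv l hl hpl hpl1 r hr a ha ha2

/-- FAC1: `ξ ψ(a) - b` is a unit. -/
theorem t_FAC1 (V : ValuationSubring ℂ) (p : ℕ) (hp : p.Prime) (hv : V.valuation (p : ℂ) < 1)
    (l : ℕ) (hl : l.Prime) (hpl : p ≠ l) (hpl1 : ¬ p ∣ l - 1) (r : ℕ) (hr : ¬ p ∣ r) (a : ℤ)
    (ha : ¬ (l : ℤ) ∣ a) (ha2 : a ^ 2 ≠ 1) :
    ∃ M₀ : ℕ, ∀ M, M₀ ≤ M → ∀ ψ : DirichletCharacter ℂ (l ^ M),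
      ψ (1 + (l : ZMod (l ^ M)) ^ (M - 1)) ≠ 1 → ∀ ξ : ℂ, ξ ^ r = 1 → ∀ b : ℤ, ¬ (p : ℤ) ∣ b →
      V.valuation (ξ * ψ (a : ZMod (l ^ M)) - b) = 1 := by
  obtain ⟨M₀, h⟩ := t_FACe 1 le_rfl V p hp hv l hl hpl hpl1 r hr a ha ha2
  refine ⟨M₀, fun M hM ψ hψ ξ hξ b hb => ?_⟩
  have := h M hM ψ hψ ξ hξ b hb
  rwa [pow_one] at this

end Pool.Agent.TWX
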